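import Pool.Agent.Q293.DirSumM

/-!
# A Liouville random walk which is not algebraically recurrent

The group is the (abelian) direct sum of countably many copies of the integers; the steps are
`±e_k`, where `e_k` runs over the standard basis and `k` has tails `P(k ≥ m) = 1/(m+1)`. Almost
surely, for all large `k`, the coordinate `k` is hit only once before a larger one is hit. The walk
is Liouville by the theorem of Choquet and Deny.
-/

set_option autoImplicit false

open MeasureTheory

namespace Pool.Agent.Results.MP_a29a94_pr.LiouvillePairNotAR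

/-- `μ` is symmetric and non-degenerate (its support generates the group). -/
def Admissible {G : Type} [Group G] (μ : PMF G) : Prop :=
  (∀ g : G, μ g⁻¹ = μ g) ∧ Subgroup.closure μ.support = ⊤

/-- `f` is `μ`-harmonic. -/
def Harmonic {G : Type} [Group G] (μ : PMF G) (f : G → ℝ) : Prop :=
  ∀ g : G, f g = ∑' h : G, (μ h).toReal * f (g * h)

/-- The `μ`-random walk is Liouville: every bounded `μ`-harmonic function is constant. -/
def Liouville {G : Type} [Group G] (μ : PMF G) : Prop :=
  ∀ f : G → ℝ, (∃ C : ℝ, ∀ g, |f g| ≤ C) → Harmonic μ f → ∃ c : ℝ, ∀ g, f g = c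

/-- The law of the i.i.d. steps `ω 0, ω 1, ...` with law `μ`. -/
noncomputable def steps {G : Type} [MeasurableSpace G] (μ : PMF G) : Measure (ℕ → G) :=
  Measure.infinitePi (fun _ : ℕ => μ.toMeasure)

/-- The walk: `walk ω m = ω 0 * ω 1 * ... * ω (m - 1)`. -/
def walk {G : Type} [Group G] (ω : ℕ → G) (m : ℕ) : G := ((List.range m).map ω).prod

/-- The semigroup generated by `walk ω n, walk ω (n + 1), ...`. -/
def tail {G : Type} [Group G] (ω : ℕ → G) (n : ℕ) : Subsemigroup G :=
  Subsemigroup.closure {g | ∃ m, n ≤ m ∧ g = walk ω m}

/-- There are a countable (abelian) group `G` and a symmetric non-degenerate probability measure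
`μ` on `G` whose random walk is Liouville, such that for some `n ≥ 1` the semigroup generated by
the walk from time `n` on is different from `G` with positive probability; in fact, almost surely,
the identity is missing from the semigroup generated by the walk after some time. (Every subset of
`G` is measurable.) -/
theorem result : ∃ (G : Type) (_ : CommGroup G) (_ : Countable G) (_ : MeasurableSpace G)
    (_ : DiscreteMeasurableSpace G) (μ : PMF G),
    Admissible μ ∧ Liouville μ ∧
    (∃ n : ℕ, 1 ≤ n ∧ 0 < steps μ {ω | tail ω n ≠ ⊤}) ∧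
    (∀ᵐ ω ∂(steps μ), ∃ n : ℕ, 1 ≤ n ∧ (1 : G) ∉ tail ω n) := by
  let _ : MeasurableSpace (Multiplicative Q293.DirSum.V) := ⊤
  have : DiscreteMeasurableSpace (Multiplicative Q293.DirSum.V) := ⟨fun _ => trivial⟩
  have hmap : (Q293.DirSum.nu.map Multiplicative.ofAdd).map
      (fun g => Multiplicative.toAdd (MonoidHom.id (Multiplicative Q293.DirSum.V) g))
        = Q293.DirSum.nu := by
    rw [PMF.map_comp]
    have : (fun g => Multiplicative.toAdd (MonoidHom.id (Multiplicative Q293.DirSum.V) g))
        ∘ Multiplicative.ofAdd = id := by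
      funext v; rfl
    rw [this, PMF.map_id]
  have happ : ∀ v, (Q293.DirSum.nu.map Multiplicative.ofAdd) (Multiplicative.ofAdd v)
      = Q293.DirSum.nu v := by
    intro v
    rw [PMF.map_apply, tsum_eq_single v]
    · simp
    · intro w hw
      rw [if_neg fun h => hw (Multiplicative.ofAdd.injective h).symm]
  have hs := Q293.DirSum.strong_of_hom (MonoidHom.id (Multiplicative Q293.DirSum.V))
    (Q293.DirSum.nu.map Multiplicative.ofAdd) hmap
  have hgen : Subgroup.closure (Q293.DirSum.nu.map Multiplicative.ofAdd).support = ⊤ := by
    rw [eq_top_iff]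
    intro g _
    have hsup : ∀ v ∈ Q293.DirSum.nu.support, Multiplicative.ofAdd v ∈
        Subgroup.closure (Q293.DirSum.nu.map Multiplicative.ofAdd).support := by
      intro v hv
      apply Subgroup.subset_closure
      rw [PMF.mem_support_iff, happ]
      exact (PMF.mem_support_iff _ _).1 hv
    have hg : g = Multiplicative.ofAdd (Multiplicative.toAdd g) := rfl
    rw [hg]
    generalize Multiplicative.toAdd g = w
    have h : w ∈ AddSubgroup.closure Q293.DirSum.nu.support := by
      rw [Q293.DirSum.nu_closure]; trivial
    induction h using AddSubgroup.closure_induction with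
    | mem x hx => exact hsup x hx
    | zero => exact Subgroup.one_mem _
    | add x y _ _ hx hy => exact Subgroup.mul_mem _ hx hy
    | neg x _ hx => exact Subgroup.inv_mem _ hx
  have hcount : Countable (Multiplicative Q293.DirSum.V) :=
    inferInstanceAs (Countable Q293.DirSum.V)
  refine ⟨Multiplicative Q293.DirSum.V, inferInstance, hcount, inferInstance, inferInstance,
    Q293.DirSum.nu.map Multiplicative.ofAdd, ⟨?_, hgen⟩, ?_, Q293.AR.pos_of_ae _ hs, hs⟩
  · intro g
    have h1 := happ (-(Multiplicative.toAdd g))
    rw [Q293.DirSum.nu_symm] at h1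
    exact h1.trans (happ (Multiplicative.toAdd g)).symm
  · rintro f ⟨C, hC⟩ hf
    exact ⟨f 1, fun g => Q293.AR.choquet_deny _ hgen f C hC hf g⟩

end Pool.Agent.Results.MP_a29a94_pr.LiouvillePairNotAR
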